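import Pool.Agent.T9h73.NF.One

/-!
# `LIperN`: linear independence of the regulators
-/

set_option autoImplicit false

namespace Pool.Agent.T9h73.NF

open Finset NumberField Pool.Agent.T9h77.NF

section

variable {K : Type} [Field K] [NumberField K]

theorem mon_indep {m : ℕ} (c : (InfinitePlace K → Fin (m + 1)) → ℝ)
    (h : ∀ z ∈ Dm K, ∑ k, c k * mon k z = 0) : c = 0 := by
  classical
  set e : (InfinitePlace K → Fin (m + 1)) → (InfinitePlace K →₀ ℕ) :=
    fun k => Finsupp.equivFunOnFinite.symm (fun v => (k v : ℕ)) with he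
  have hinj : ∀ k k', e k = e k' → k = k' := by
    intro k k' hkk
    funext v
    apply Fin.ext
    have := congrArg (fun f : InfinitePlace K →₀ ℕ => f v) hkk
    simpa [he] using this
  set p : MvPolynomial (InfinitePlace K) ℝ := ∑ k, MvPolynomial.monomial (e k) (c k) with hp
  have hp0 : p = 0 := by
    refine MvPolynomial.funext_set (fun _ => Set.Iio (0 : ℝ)) (fun _ => Set.Iio_infinite 0) ?_
    intro x hx
    rw [map_zero]
    have hx' : ∀ v, x v < 0 := fun v => hx v (Set.mem_univ v)
    have h1 := h (fun v => ((Real.exp (x v) : ℝ) : ℂ)) (by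
      intro v
      have h2 : ‖((Real.exp (x v) : ℝ) : ℂ)‖ = Real.exp (x v) := by
        rw [Complex.norm_real, Real.norm_eq_abs, abs_of_pos (Real.exp_pos _)]
      refine ⟨?_, ?_, fun _ => Complex.ofReal_im _⟩
      · show 0 < ‖((Real.exp (x v) : ℝ) : ℂ)‖
        rw [h2]; exact Real.exp_pos _
      · show ‖((Real.exp (x v) : ℝ) : ℂ)‖ < 1
        rw [h2, ← Real.exp_zero]; exact Real.exp_lt_exp.2 (hx' v))
    rw [← h1, hp, map_sum]
    refine sum_congr rfl fun k _ => ?_
    rw [MvPolynomial.eval_monomial]
    congr 1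
    unfold mon
    rw [Finsupp.prod_fintype _ _ (fun _ => pow_zero _)]
    refine prod_congr rfl fun v _ => ?_
    rw [Complex.norm_real, Real.norm_eq_abs, abs_of_pos (Real.exp_pos _), Real.log_exp]
    simp [he]
  funext k₀
  have h2 := congrArg (fun q : MvPolynomial (InfinitePlace K) ℝ => q.coeff (e k₀)) hp0
  simp only [hp, MvPolynomial.coeff_sum, MvPolynomial.coeff_monomial, MvPolynomial.coeff_zero] at h2
  rw [sum_eq_single k₀] at h2
  · simpa using h2
  · intro k _ hk
    rw [if_neg]
    intro h3
    exact hk (hinj _ _ h3)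
  · intro hn
    exact absurd (mem_univ _) hn

theorem wts_spec {N n : ℕ} {v : InfinitePlace K} (h : n ∈ wts K N v) : 2 ≤ n ∧ (v.IsReal → Odd n) := by
  classical
  unfold wts at h
  simp only [mem_filter, mem_Icc] at h
  exact ⟨h.1.1, h.2⟩

theorem collapse {m : ℕ} (v₀ : InfinitePlace K) (F : (InfinitePlace K → Fin (m + 1)) → ℝ)
    (L c : ℝ) :
    ∑ κ : Fin (m + 1), (∑ k, if k v₀ = κ then F k else 0) * L ^ (κ : ℕ) * c =
      ∑ k, F k * L ^ (k v₀ : ℕ) * c := by
  simp_rw [sum_mul]
  rw [sum_comm]
  refine sum_congr rfl fun k _ => ?_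
  rw [sum_eq_single (k v₀)]
  · rw [if_pos rfl]
  · intro κ _ hκ
    rw [if_neg (fun h => hκ h.symm)]
    simp
  · intro hn
    exact absurd (mem_univ _) hn

theorem collapse' {m : ℕ} (v₀ : InfinitePlace K) (F : (InfinitePlace K → Fin (m + 1)) → ℝ)
    (L : ℝ) :
    ∑ κ : Fin (m + 1), (∑ k, if k v₀ = κ then F k else 0) * L ^ (κ : ℕ) =
      ∑ k, F k * L ^ (k v₀ : ℕ) := by
  have := collapse v₀ F L 1
  simpa using this

theorem mon_update {m : ℕ} (v₀ : InfinitePlace K) (k : InfinitePlace K → Fin (m + 1))
    (z : InfinitePlace K → ℂ) (ζ : ℂ) :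
    mon k (Function.update z v₀ ζ) =
      (∏ v ∈ univ.erase v₀, Real.log ‖z v‖ ^ (k v : ℕ)) * Real.log ‖ζ‖ ^ (k v₀ : ℕ) := by
  unfold mon
  rw [← prod_erase_mul univ _ (mem_univ v₀)]
  congr 1
  · refine prod_congr rfl fun v hv => ?_
    rw [Function.update_of_ne (ne_of_mem_erase hv)]
  · rw [Function.update_self]

end

theorem lIperN (K : Type) [Field K] [NumberField K] : LIperN K := by
  intro N m a₀ a₁ b h
  have hv : ∀ v₀, a₁ v₀ = 0 ∧ ∀ n ∈ wts K N v₀, b v₀ n = 0 := by
    intro v₀
    have hz : ∀ z ∈ Dm K, (∑ k, a₁ v₀ k * mon k z = 0) ∧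
        ∀ n ∈ wts K N v₀, ∑ k, b v₀ n k * mon k z = 0 := by
      intro z hz
      set M : (InfinitePlace K → Fin (m + 1)) → ℝ :=
        fun k => ∏ v ∈ univ.erase v₀, Real.log ‖z v‖ ^ (k v : ℕ) with hM
      have hone := one (wts K N v₀)
        (fun κ : Fin (m + 1) => ∑ k, if k v₀ = κ then a₁ v₀ k * M k else 0)
        (fun n κ => ∑ k, if k v₀ = κ then b v₀ n k * M k else 0)
        (fun κ => ∑ k, if k v₀ = κ then M k * (a₀ k + ∑ v ∈ univ.erase v₀,
          a₁ v k * Real.log ‖1 - z v‖ + ∑ v ∈ univ.erase v₀, ∑ n ∈ wts K N v,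
            b v n k * Lcv n (z v)) else 0)
        (by
          intro n hn
          exact (wts_spec hn).1)
        v₀.IsReal
        (by
          intro hr n hn
          exact (wts_spec hn).2 hr)
        (by
          intro t θ ht ht1 hθ
          rw [collapse', collapse]
          have e3 : ∑ n ∈ wts K N v₀, ∑ κ : Fin (m + 1),
              (∑ k, if k v₀ = κ then b v₀ n k * M k else 0) * Real.log t ^ (κ : ℕ) *
                Lcv n (pt t θ) =
              ∑ n ∈ wts K N v₀, ∑ k, b v₀ n k * M k * Real.log t ^ (k v₀ : ℕ) *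
                Lcv n (pt t θ) := sum_congr rfl fun n _ => collapse v₀ _ _ _
          rw [e3]
          have hmem : Function.update z v₀ (pt t θ) ∈ Dm K := by
            intro v
            by_cases hvv : v = v₀
            · subst hvv
              rw [Function.update_self, norm_pt t θ ht]
              refine ⟨ht, ht1, fun hr => ?_⟩
              rw [hθ hr]
              simp [pt]
            · rw [Function.update_of_ne hvv]
              exact hz v
          have h1 := h _ hmem
          rw [← add_sum_erase univ (fun v => ∑ k, a₁ v k * mon k (Function.update z v₀ (pt t θ)) *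
              Real.log ‖1 - Function.update z v₀ (pt t θ) v‖) (mem_univ v₀),
            ← add_sum_erase univ (fun v => ∑ n ∈ wts K N v, ∑ k, b v n k *
              mon k (Function.update z v₀ (pt t θ)) * Lcv n (Function.update z v₀ (pt t θ) v))
              (mem_univ v₀)] at h1
          simp only [Function.update_self] at h1
          have e1 : ∑ v ∈ univ.erase v₀, ∑ k, a₁ v k * mon k (Function.update z v₀ (pt t θ)) *
              Real.log ‖1 - Function.update z v₀ (pt t θ) v‖ =
              ∑ k, M k * (∑ v ∈ univ.erase v₀, a₁ v k * Real.log ‖1 - z v‖) *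
                Real.log t ^ (k v₀ : ℕ) := by
            rw [sum_comm]
            refine sum_congr rfl fun k _ => ?_
            rw [mul_sum, sum_mul]
            refine sum_congr rfl fun v hv => ?_
            rw [mon_update, norm_pt t θ ht, Function.update_of_ne (ne_of_mem_erase hv)]
            ring
          have e2 : ∑ v ∈ univ.erase v₀, ∑ n ∈ wts K N v, ∑ k, b v n k *
              mon k (Function.update z v₀ (pt t θ)) * Lcv n (Function.update z v₀ (pt t θ) v) =
              ∑ k, M k * (∑ v ∈ univ.erase v₀, ∑ n ∈ wts K N v, b v n k * Lcv n (z v)) *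
                Real.log t ^ (k v₀ : ℕ) := by
            have e4 : ∀ v ∈ univ.erase v₀, ∑ n ∈ wts K N v, ∑ k, b v n k *
              mon k (Function.update z v₀ (pt t θ)) * Lcv n (Function.update z v₀ (pt t θ) v) =
              ∑ k, ∑ n ∈ wts K N v, b v n k *
              mon k (Function.update z v₀ (pt t θ)) * Lcv n (Function.update z v₀ (pt t θ) v) :=
              fun v _ => sum_comm
            rw [sum_congr rfl e4, sum_comm]
            refine sum_congr rfl fun k _ => ?_
            rw [mul_sum, sum_mul]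
            refine sum_congr rfl fun v hv => ?_
            rw [mul_sum, sum_mul]
            refine sum_congr rfl fun n _ => ?_
            rw [mon_update, norm_pt t θ ht, Function.update_of_ne (ne_of_mem_erase hv)]
            ring
          rw [e1, e2] at h1
          simp only [mon_update, norm_pt t θ ht] at h1
          rw [← h1]
          have e5 : ∑ k, M k * (a₀ k + ∑ v ∈ univ.erase v₀,
              a₁ v k * Real.log ‖1 - z v‖ + ∑ v ∈ univ.erase v₀, ∑ n ∈ wts K N v,
                b v n k * Lcv n (z v)) * Real.log t ^ (k v₀ : ℕ) =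
              ∑ k, a₀ k * (M k * Real.log t ^ (k v₀ : ℕ)) +
              ∑ k, M k * (∑ v ∈ univ.erase v₀, a₁ v k * Real.log ‖1 - z v‖) *
                Real.log t ^ (k v₀ : ℕ) +
              ∑ k, M k * (∑ v ∈ univ.erase v₀, ∑ n ∈ wts K N v, b v n k * Lcv n (z v)) *
                Real.log t ^ (k v₀ : ℕ) := by
            rw [← sum_add_distrib, ← sum_add_distrib]
            refine sum_congr rfl fun k _ => ?_
            ring
          have e6 : ∑ k, a₁ v₀ k * M k * Real.log t ^ (k v₀ : ℕ) * Real.log ‖1 - pt t θ‖ =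
              ∑ k, a₁ v₀ k * (M k * Real.log t ^ (k v₀ : ℕ)) * Real.log ‖1 - pt t θ‖ :=
            sum_congr rfl fun k _ => by ring
          have e7 : ∑ n ∈ wts K N v₀, ∑ k, b v₀ n k * M k * Real.log t ^ (k v₀ : ℕ) *
                Lcv n (pt t θ) =
              ∑ n ∈ wts K N v₀, ∑ k, b v₀ n k * (M k * Real.log t ^ (k v₀ : ℕ)) *
                Lcv n (pt t θ) :=
            sum_congr rfl fun n _ => sum_congr rfl fun k _ => by ring
          rw [e5, e6, e7]
          ring)
      obtain ⟨_, ha, hb⟩ := hone
      have hmz : ∀ k : InfinitePlace K → Fin (m + 1), mon k z =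
          M k * Real.log ‖z v₀‖ ^ (k v₀ : ℕ) := by
        intro k
        have := mon_update v₀ k z (z v₀)
        rwa [Function.update_eq_self] at this
      constructor
      · have h1 := collapse' v₀ (fun k => a₁ v₀ k * M k) (Real.log ‖z v₀‖)
        have h2 : ∀ κ : Fin (m + 1), (∑ k, if k v₀ = κ then a₁ v₀ k * M k else 0) = 0 :=
          fun κ => congrFun ha κ
        simp only [h2, zero_mul, sum_const_zero] at h1
        rw [h1]
        refine sum_congr rfl fun k _ => ?_
        rw [hmz k]
        ring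
      · intro n hn
        have h1 := collapse' v₀ (fun k => b v₀ n k * M k) (Real.log ‖z v₀‖)
        have h2 : ∀ κ : Fin (m + 1), (∑ k, if k v₀ = κ then b v₀ n k * M k else 0) = 0 :=
          fun κ => congrFun (hb n hn) κ
        simp only [h2, zero_mul, sum_const_zero] at h1
        rw [h1]
        refine sum_congr rfl fun k _ => ?_
        rw [hmz k]
        ring
    exact ⟨mon_indep _ fun z hz' => (hz z hz').1, fun n hn =>
      mon_indep _ fun z hz' => (hz z hz').2 n hn⟩
  have ha₁ : a₁ = 0 := by
    funext v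
    exact (hv v).1
  refine ⟨?_, ha₁, fun v n hn => (hv v).2 n hn⟩
  refine mon_indep _ fun z hz => ?_
  have h1 := h z hz
  have e2 : ∑ v, ∑ k, a₁ v k * mon k z * Real.log ‖1 - z v‖ = 0 := by
    refine sum_eq_zero fun v _ => sum_eq_zero fun k _ => ?_
    rw [ha₁]
    simp
  have e3 : ∑ v, ∑ n ∈ wts K N v, ∑ k, b v n k * mon k z * Lcv n (z v) = 0 := by
    refine sum_eq_zero fun v _ => sum_eq_zero fun n hn => sum_eq_zero fun k _ => ?_
    rw [(hv v).2 n hn]
    simp
  rw [e2, e3, add_zero, add_zero] at h1
  exact h1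

end Pool.Agent.T9h73.NF
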