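import Pool.Agent.T9h73.NF.One

/-!
# `LcvCont`: continuity of the single valued polylogarithms on the punctured disc
-/

set_option autoImplicit false

namespace Pool.Agent.T9h73.NF

open Finset Pool.Agent.T9h91.QD Pool.Agent.T9h77.NF

theorem continuousOn_Lic (s : ℕ) : ContinuousOn (Lic s) {z : ℂ | ‖z‖ < 1} := by
  intro z₀ hz₀
  have h0 : ‖z₀‖ < 1 := hz₀
  obtain ⟨r, hr1, hr2⟩ := exists_between h0
  have hr0 : 0 ≤ r := (norm_nonneg z₀).trans hr1.le
  have h1 : ContinuousOn (Lic s) {z : ℂ | ‖z‖ < r} := by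
    unfold Lic
    refine continuousOn_tsum (u := fun k : ℕ => r ^ k) (fun k => ?_)
      (summable_geometric_of_lt_one hr0 hr2) ?_
    · exact (Continuous.div_const (continuous_id.pow _) _).continuousOn
    · intro k z hz
      have hz' : ‖z‖ < r := hz
      rw [norm_div, norm_pow, norm_pow]
      have h0 : ‖(k : ℂ) + 1‖ = (k : ℝ) + 1 := by
        have : (k : ℂ) + 1 = (((k : ℝ) + 1 : ℝ) : ℂ) := by push_cast; rfl
        rw [this, Complex.norm_real, Real.norm_eq_abs, abs_of_nonneg (by positivity)]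
      have h1 : (1 : ℝ) ≤ ‖(k : ℂ) + 1‖ ^ s := by
        rw [h0]
        apply one_le_pow₀
        linarith [(Nat.cast_nonneg k : (0:ℝ) ≤ k)]
      rw [div_le_iff₀ (by linarith)]
      have h2 : ‖z‖ ^ (k + 1) ≤ r ^ k :=
        (pow_le_pow_of_le_one (norm_nonneg _) (hz'.trans hr2).le (by omega)).trans
          (pow_le_pow_left₀ (norm_nonneg _) hz'.le k)
      nlinarith [pow_nonneg hr0 k]
  have h2 : {z : ℂ | ‖z‖ < r} ∈ nhds z₀ :=
    (isOpen_lt continuous_norm continuous_const).mem_nhds hr1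
  exact (h1.continuousAt h2).continuousWithinAt

/-- `LcvCont`. -/
theorem lcvCont : LcvCont := by
  intro n _
  have h1 : Lcv n = fun z => ∑ j ∈ range n, bt j * Real.log ‖z‖ ^ j *
    (if Odd n then (Lic (n - j) z).re else (Lic (n - j) z).im) := by
    funext z
    exact Lcv_eq n z
  rw [h1]
  refine continuousOn_finset_sum _ fun j _ => ?_
  refine ContinuousOn.mul (ContinuousOn.mul continuousOn_const (ContinuousOn.pow ?_ _)) ?_
  · refine ContinuousOn.log continuous_norm.continuousOn ?_
    intro z hz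
    exact hz.1.ne'
  · have h2 : ContinuousOn (Lic (n - j)) {z : ℂ | 0 < ‖z‖ ∧ ‖z‖ < 1} :=
      (continuousOn_Lic (n - j)).mono fun z hz => hz.2
    split_ifs
    · exact Complex.continuous_re.comp_continuousOn h2
    · exact Complex.continuous_im.comp_continuousOn h2

end Pool.Agent.T9h73.NF
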