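import Pool.Agent.T9h91.QD.LIper
import Pool.Agent.T9h77.NF.Spec

/-!
# Linear independence of the polylogarithms at one place, real or complex
-/

set_option autoImplicit false

namespace Pool.Agent.T9h73.NF

open Finset Polynomial Pool.Agent.T9h91.QD Pool.Agent.T9h77.NF

section one

variable {m : ℕ} (S : Finset ℕ) (a₁ : Fin (m + 1) → ℝ) (b : ℕ → Fin (m + 1) → ℝ)

/-- the coefficient polynomials. -/
noncomputable def T (a₁ : Fin (m + 1) → ℝ) (b : ℕ → Fin (m + 1) → ℝ) (i : ℕ) : ℝ[X] :=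
  ∑ n ∈ S, ∑ k : Fin (m + 1), ∑ j ∈ range n,
    monomial ((k : ℕ) + j) (b n k * bt j * (((i : ℝ) + 1)⁻¹) ^ (n - j)) -
  ∑ k : Fin (m + 1), monomial (k : ℕ) (a₁ k * ((i : ℝ) + 1)⁻¹)

theorem T_deg (i : ℕ) : (T S a₁ b i).natDegree ≤ m + S.sup id := by
  unfold T
  refine (natDegree_sub_le _ _).trans (max_le ?_ ?_)
  · refine natDegree_sum_le_of_forall_le _ _ fun n hn => ?_
    refine natDegree_sum_le_of_forall_le _ _ fun k _ => ?_
    refine natDegree_sum_le_of_forall_le _ _ fun j hj => ?_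
    refine (natDegree_monomial_le _).trans ?_
    have h1 : n ≤ S.sup id := le_sup (f := id) hn
    have h2 := mem_range.1 hj
    have h3 := k.2
    omega
  · refine natDegree_sum_le_of_forall_le _ _ fun k _ => ?_
    refine (natDegree_monomial_le _).trans ?_
    have h3 := k.2
    omega

/-- bound for the coefficients. -/
noncomputable def BT : ℝ :=
  ∑ n ∈ S, ∑ k : Fin (m + 1), ∑ j ∈ range n, |b n k * bt j| + ∑ k : Fin (m + 1), |a₁ k|

theorem T_coeff (i r : ℕ) : |(T S a₁ b i).coeff r| ≤ BT S a₁ b := by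
  obtain ⟨h0, h1⟩ := inv_le_one' i
  unfold T BT
  rw [coeff_sub, finsetSum_coeff]
  simp_rw [finsetSum_coeff]
  have hA : |∑ n ∈ S, ∑ k : Fin (m + 1), ∑ j ∈ range n,
      (monomial ((k : ℕ) + j) (b n k * bt j * (((i : ℝ) + 1)⁻¹) ^ (n - j))).coeff r| ≤
      ∑ n ∈ S, ∑ k : Fin (m + 1), ∑ j ∈ range n, |b n k * bt j| := by
    refine (abs_sum_le_sum_abs _ _).trans (sum_le_sum fun n _ => ?_)
    refine (abs_sum_le_sum_abs _ _).trans (sum_le_sum fun k _ => ?_)
    refine (abs_sum_le_sum_abs _ _).trans (sum_le_sum fun j _ => ?_)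
    rw [coeff_monomial]
    split_ifs
    · rw [abs_mul]
      refine mul_le_of_le_one_right (abs_nonneg _) ?_
      rw [abs_of_nonneg (pow_nonneg h0 _)]
      exact pow_le_one₀ h0 h1
    · rw [abs_zero]
      exact abs_nonneg _
  have hB : |∑ k : Fin (m + 1), (monomial (k : ℕ) (a₁ k * ((i : ℝ) + 1)⁻¹)).coeff r| ≤
      ∑ k : Fin (m + 1), |a₁ k| := by
    refine (abs_sum_le_sum_abs _ _).trans (sum_le_sum fun k _ => ?_)
    rw [coeff_monomial]
    split_ifs
    · rw [abs_mul]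
      refine mul_le_of_le_one_right (abs_nonneg _) ?_
      rw [abs_of_nonneg h0]
      exact h1
    · simp
  refine (abs_sub _ _).trans ?_
  linarith

/-- the coefficient polynomials in `1/(i+1)`. -/
noncomputable def G (r : ℕ) : ℝ[X] :=
  ∑ n ∈ S, ∑ k : Fin (m + 1), ∑ j ∈ range n,
    (if (k : ℕ) + j = r then monomial (n - j) (b n k * bt j) else 0) -
  ∑ k : Fin (m + 1), (if (k : ℕ) = r then monomial 1 (a₁ k) else 0)

theorem G_eval (i r : ℕ) : (G S a₁ b r).eval (((i : ℝ) + 1)⁻¹) = (T S a₁ b i).coeff r := by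
  unfold G T
  rw [eval_sub, coeff_sub]
  simp_rw [eval_finsetSum, finsetSum_coeff, coeff_monomial]
  congr 1
  · refine sum_congr rfl fun n _ => sum_congr rfl fun k _ => sum_congr rfl fun j _ => ?_
    split_ifs
    · rw [eval_monomial]
    · simp
  · refine sum_congr rfl fun k _ => ?_
    split_ifs
    · rw [eval_monomial, pow_one]
    · simp

theorem key (hS : ∀ n ∈ S, 2 ≤ n) (hT : ∀ i, T S a₁ b i = 0) : a₁ = 0 ∧ ∀ n ∈ S, b n = 0 := by
  have hG : ∀ r, G S a₁ b r = 0 := by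
    intro r
    refine Polynomial.eq_zero_of_infinite_isRoot _ ?_
    refine Set.Infinite.mono (s := Set.range fun i : ℕ => ((i : ℝ) + 1)⁻¹) ?_ ?_
    · rintro _ ⟨i, rfl⟩
      show (G S a₁ b r).IsRoot _
      rw [IsRoot, G_eval, hT i, coeff_zero]
    · refine Set.infinite_range_of_injective ?_
      intro i j hij
      have := inv_injective hij
      exact_mod_cast add_right_cancel this
  -- coefficient of `Y^n₀`
  have hcoef : ∀ r n₀ : ℕ, ∑ n ∈ S, ∑ k : Fin (m + 1), ∑ j ∈ range n,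
      (if (k : ℕ) + j = r then (if n - j = n₀ then b n k * bt j else 0) else 0) =
      ∑ k : Fin (m + 1), (if (k : ℕ) = r then (if 1 = n₀ then a₁ k else 0) else 0) := by
    intro r n₀
    have h1 := congrArg (fun p : ℝ[X] => p.coeff n₀) (hG r)
    simp only [G, coeff_sub, finsetSum_coeff, coeff_zero] at h1
    rw [sub_eq_zero] at h1
    convert h1 using 1
    · refine sum_congr rfl fun n _ => sum_congr rfl fun k _ => sum_congr rfl fun j _ => ?_
      split_ifs with h2 h3
      · rw [coeff_monomial, if_pos h3]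
      · rw [coeff_monomial, if_neg h3]
      · simp
    · refine sum_congr rfl fun k _ => ?_
      split_ifs with h2 h3
      · rw [coeff_monomial, if_pos h3]
      · rw [coeff_monomial, if_neg h3]
      · simp
  have hbt0 : bt 0 = 1 := by simp [bt]
  have hb : ∀ N n : ℕ, S.sup id < n + N → n ∈ S → b n = 0 := by
    intro N
    induction N with
    | zero =>
      intro n h1 h2
      have : n ≤ S.sup id := le_sup (f := id) h2
      omega
    | succ N ih =>
      intro n₀ h1 hn₀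
      have h3 := hS n₀ hn₀
      funext k₀
      have h4 := hcoef (k₀ : ℕ) n₀
      have h5 : ∑ k : Fin (m + 1), (if (k : ℕ) = (k₀ : ℕ) then (if 1 = n₀ then a₁ k else 0) else 0)
          = 0 := by
        refine sum_eq_zero fun k _ => ?_
        rw [if_neg (show ¬ 1 = n₀ by omega)]
        simp
      rw [h5] at h4
      rw [sum_eq_single n₀] at h4
      · rw [sum_eq_single k₀] at h4
        · rw [sum_eq_single 0] at h4
          · simpa [hbt0] using h4
          · intro j hj hj0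
            rw [if_neg (by omega)]
          · intro hn
            exact absurd (mem_range.2 (by omega)) hn
        · intro k _ hk
          refine sum_eq_zero fun j hj => ?_
          have hj2 := mem_range.1 hj
          by_cases h6 : (k : ℕ) + j = k₀
          · rw [if_pos h6]
            by_cases h7 : j = 0
            · exfalso
              apply hk
              apply Fin.ext
              omega
            · rw [if_neg (by omega)]
          · rw [if_neg h6]
        · intro hn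
          exact absurd (mem_univ _) hn
      · intro n hn hne
        rcases lt_or_gt_of_ne hne with h6 | h6
        · refine sum_eq_zero fun k _ => sum_eq_zero fun j hj => ?_
          have hj2 := mem_range.1 hj
          split_ifs with h7 h8
          · omega
          · rfl
          · rfl
        · have h7 := ih n (by omega) hn
          refine sum_eq_zero fun k _ => sum_eq_zero fun j hj => ?_
          rw [h7]
          simp
      · intro hn
        exact absurd hn₀ hn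
  have hb' : ∀ n ∈ S, b n = 0 := fun n h1 => hb (S.sup id + 1) n (by omega) h1
  refine ⟨?_, hb'⟩
  funext k₀
  have h1 := hcoef (k₀ : ℕ) 1
  have h2 : ∑ n ∈ S, ∑ k : Fin (m + 1), ∑ j ∈ range n,
    (if (k : ℕ) + j = (k₀ : ℕ) then (if n - j = 1 then b n k * bt j else 0) else 0) = 0 := by
    refine sum_eq_zero fun n hn => sum_eq_zero fun k _ => sum_eq_zero fun j hj => ?_
    rw [hb' n hn]
    simp
  rw [h2, sum_eq_single k₀] at h1
  · simpa using h1.symm
  · intro k _ hk
    rw [if_neg]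
    intro h2
    exact hk (Fin.ext h2)
  · intro hn
    exact absurd (mem_univ _) hn

/-- `cos` or `sin`. -/
noncomputable def cs (n : ℕ) (x : ℝ) : ℝ := if Odd n then Real.cos x else Real.sin x

theorem cs_le (n : ℕ) (x : ℝ) : |cs n x| ≤ 1 := by
  unfold cs
  split_ifs
  · exact Real.abs_cos_le_one x
  · exact Real.abs_sin_le_one x

/-- the polynomials for the angle `θ`. -/
noncomputable def qq (a₀ a₁ : Fin (m + 1) → ℝ) (b : ℕ → Fin (m + 1) → ℝ) (θ : ℝ) : ℕ → ℝ[X]
  | 0 => ∑ k : Fin (m + 1), monomial (k : ℕ) (a₀ k)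
  | (i + 1) => T S (fun k => a₁ k * Real.cos (((i : ℝ) + 1) * θ))
      (fun n k => b n k * cs n (((i : ℝ) + 1) * θ)) i

variable (a₀ : Fin (m + 1) → ℝ)

theorem qq_deg (θ : ℝ) (i : ℕ) : (qq S a₀ a₁ b θ i).natDegree ≤ m + S.sup id := by
  cases i with
  | zero =>
    unfold qq
    refine natDegree_sum_le_of_forall_le _ _ fun k _ => ?_
    refine (natDegree_monomial_le _).trans ?_
    have h3 := k.2
    omega
  | succ i =>
    unfold qq
    exact T_deg S _ _ i

theorem qq_coeff (θ : ℝ) (i r : ℕ) : |(qq S a₀ a₁ b θ i).coeff r| ≤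
    BT S a₁ b + ∑ k : Fin (m + 1), |a₀ k| := by
  have h1 : (0 : ℝ) ≤ BT S a₁ b := by unfold BT; positivity
  have h2 : (0 : ℝ) ≤ ∑ k : Fin (m + 1), |a₀ k| := by positivity
  cases i with
  | zero =>
    unfold qq
    simp_rw [finsetSum_coeff]
    have hB : |∑ k : Fin (m + 1), (monomial (k : ℕ) (a₀ k)).coeff r| ≤
        ∑ k : Fin (m + 1), |a₀ k| := by
      refine (abs_sum_le_sum_abs _ _).trans (sum_le_sum fun k _ => ?_)
      rw [coeff_monomial]
      split_ifs <;> simp
    linarith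
  | succ i =>
    unfold qq
    refine (T_coeff S _ _ i r).trans ?_
    have h3 : BT S (fun k => a₁ k * Real.cos (((i : ℝ) + 1) * θ))
      (fun n k => b n k * cs n (((i : ℝ) + 1) * θ)) ≤ BT S a₁ b := by
      unfold BT
      refine add_le_add ?_ ?_
      · refine sum_le_sum fun n _ => sum_le_sum fun k _ => sum_le_sum fun j _ => ?_
        rw [mul_right_comm, abs_mul]
        exact mul_le_of_le_one_right (abs_nonneg _) (cs_le _ _)
      · refine sum_le_sum fun k _ => ?_
        rw [abs_mul]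
        exact mul_le_of_le_one_right (abs_nonneg _) (Real.abs_cos_le_one _)
    linarith

/-- the point. -/
noncomputable def pt (t θ : ℝ) : ℂ := (t : ℂ) * Complex.exp ((θ : ℂ) * Complex.I)

theorem norm_pt (t θ : ℝ) (ht : 0 < t) : ‖pt t θ‖ = t := by
  unfold pt
  rw [norm_mul, Complex.norm_exp_ofReal_mul_I, mul_one, Complex.norm_real, Real.norm_eq_abs,
    abs_of_pos ht]

theorem pt_pow (t θ : ℝ) (i : ℕ) : pt t θ ^ (i + 1) =
    ((t ^ (i + 1) : ℝ) : ℂ) * Complex.exp (((((i : ℝ) + 1) * θ : ℝ) : ℂ) * Complex.I) := by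
  unfold pt
  rw [mul_pow, ← Complex.exp_nat_mul]
  push_cast
  congr 2
  ring

theorem pt_re (t θ : ℝ) (i : ℕ) : (pt t θ ^ (i + 1)).re =
    t ^ (i + 1) * Real.cos (((i : ℝ) + 1) * θ) := by
  rw [pt_pow, Complex.re_ofReal_mul, Complex.exp_ofReal_mul_I_re]

theorem pt_im (t θ : ℝ) (i : ℕ) : (pt t θ ^ (i + 1)).im =
    t ^ (i + 1) * Real.sin (((i : ℝ) + 1) * θ) := by
  rw [pt_pow, Complex.im_ofReal_mul, Complex.exp_ofReal_mul_I_im]

theorem summable_Lic (s : ℕ) (z : ℂ) (hz : ‖z‖ < 1) :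
    Summable (fun k : ℕ => z ^ (k + 1) / ((k : ℂ) + 1) ^ s) := by
  refine Summable.of_norm_bounded (g := fun k : ℕ => ‖z‖ ^ k)
    (summable_geometric_of_lt_one (norm_nonneg _) hz) ?_
  intro k
  rw [norm_div, norm_pow, norm_pow]
  have h0 : ‖(k : ℂ) + 1‖ = (k : ℝ) + 1 := by
    have : (k : ℂ) + 1 = (((k : ℝ) + 1 : ℝ) : ℂ) := by push_cast; rfl
    rw [this, Complex.norm_real, Real.norm_eq_abs, abs_of_nonneg (by positivity)]
  have h1 : (1 : ℝ) ≤ ‖(k : ℂ) + 1‖ ^ s := by
    rw [h0]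
    apply one_le_pow₀
    linarith [(Nat.cast_nonneg k : (0:ℝ) ≤ k)]
  rw [div_le_iff₀ (by linarith)]
  have h2 : ‖z‖ ^ (k + 1) ≤ ‖z‖ ^ k := pow_le_pow_of_le_one (norm_nonneg _) hz.le (by omega)
  nlinarith [pow_nonneg (norm_nonneg z) k]

theorem hasSum_cs (n s : ℕ) (t θ : ℝ) (ht : 0 < t) (ht1 : t < 1) :
    HasSum (fun i : ℕ => t ^ (i + 1) * cs n (((i : ℝ) + 1) * θ) * (((i : ℝ) + 1)⁻¹) ^ s)
      (if Odd n then (Lic s (pt t θ)).re else (Lic s (pt t θ)).im) := by
  have hz : ‖pt t θ‖ < 1 := by rw [norm_pt t θ ht]; exact ht1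
  have h1 : HasSum (fun k : ℕ => pt t θ ^ (k + 1) / ((k : ℂ) + 1) ^ s) (Lic s (pt t θ)) :=
    (summable_Lic s _ hz).hasSum
  have h2 : ∀ k : ℕ, pt t θ ^ (k + 1) / ((k : ℂ) + 1) ^ s =
      (((((k : ℝ) + 1)⁻¹) ^ s : ℝ) : ℂ) * pt t θ ^ (k + 1) := by
    intro k
    push_cast
    rw [inv_pow, mul_comm, div_eq_mul_inv]
  simp_rw [h2] at h1
  unfold cs
  split_ifs with hn
  · have h3 := Complex.hasSum_re h1
    convert h3 using 2 with i
    rw [Complex.re_ofReal_mul, pt_re]
    ring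
  · have h3 := Complex.hasSum_im h1
    convert h3 using 2 with i
    rw [Complex.im_ofReal_mul, pt_im]
    ring

theorem hasSum_lg (t θ : ℝ) (ht : 0 < t) (ht1 : t < 1) :
    HasSum (fun i : ℕ => t ^ (i + 1) * Real.cos (((i : ℝ) + 1) * θ) * ((i : ℝ) + 1)⁻¹)
      (- Real.log ‖1 - pt t θ‖) := by
  have hz : ‖pt t θ‖ < 1 := by rw [norm_pt t θ ht]; exact ht1
  have h1 := Complex.hasSum_taylorSeries_neg_log hz
  rw [← hasSum_nat_add_iff' 1] at h1
  have h2 : ∀ k : ℕ, pt t θ ^ (k + 1) / ((k + 1 : ℕ) : ℂ) =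
      (((((k : ℝ) + 1)⁻¹) : ℝ) : ℂ) * pt t θ ^ (k + 1) := by
    intro k
    push_cast
    rw [mul_comm, div_eq_mul_inv]
  simp_rw [h2] at h1
  have h3 := Complex.hasSum_re h1
  have h4 : (-Complex.log (1 - pt t θ) - ∑ i ∈ range 1, pt t θ ^ i / (i : ℂ)).re =
      - Real.log ‖1 - pt t θ‖ := by
    simp [Complex.log_re]
  rw [h4] at h3
  convert h3 using 2 with i
  rw [Complex.re_ofReal_mul, pt_re]
  ring

theorem Lcv_eq (n : ℕ) (z : ℂ) : Lcv n z = ∑ j ∈ range n, bt j * Real.log ‖z‖ ^ j *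
    (if Odd n then (Lic (n - j) z).re else (Lic (n - j) z).im) := by
  unfold Lcv
  split_ifs with hn
  · rw [Complex.re_sum]
    refine sum_congr rfl fun j _ => ?_
    rw [Complex.re_ofReal_mul]
    rfl
  · rw [Complex.im_sum]
    refine sum_congr rfl fun j _ => ?_
    rw [Complex.im_ofReal_mul]
    rfl

theorem hasSum_qq (t θ : ℝ) (ht : 0 < t) (ht1 : t < 1)
    (h : ∑ k, a₀ k * Real.log t ^ (k : ℕ) +
        ∑ k, a₁ k * Real.log t ^ (k : ℕ) * Real.log ‖1 - pt t θ‖ +
        ∑ n ∈ S, ∑ k, b n k * Real.log t ^ (k : ℕ) * Lcv n (pt t θ) = 0) :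
    HasSum (fun i => t ^ i * (qq S a₀ a₁ b θ i).eval (Real.log t)) 0 := by
  have hT : HasSum (fun i : ℕ => t ^ (i + 1) * (qq S a₀ a₁ b θ (i + 1)).eval (Real.log t))
      (∑ n ∈ S, ∑ k : Fin (m + 1), ∑ j ∈ range n,
        (b n k * bt j * Real.log t ^ ((k : ℕ) + j)) *
          (if Odd n then (Lic (n - j) (pt t θ)).re else (Lic (n - j) (pt t θ)).im) -
        ∑ k : Fin (m + 1), (a₁ k * Real.log t ^ (k : ℕ)) * (-Real.log ‖1 - pt t θ‖)) := by
    have h1 : HasSum (fun i : ℕ => ∑ n ∈ S, ∑ k : Fin (m + 1), ∑ j ∈ range n,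
        (b n k * bt j * Real.log t ^ ((k : ℕ) + j)) *
          (t ^ (i + 1) * cs n (((i : ℝ) + 1) * θ) * (((i : ℝ) + 1)⁻¹) ^ (n - j)) -
        ∑ k : Fin (m + 1), (a₁ k * Real.log t ^ (k : ℕ)) *
          (t ^ (i + 1) * Real.cos (((i : ℝ) + 1) * θ) * ((i : ℝ) + 1)⁻¹))
        (∑ n ∈ S, ∑ k : Fin (m + 1), ∑ j ∈ range n,
        (b n k * bt j * Real.log t ^ ((k : ℕ) + j)) *
          (if Odd n then (Lic (n - j) (pt t θ)).re else (Lic (n - j) (pt t θ)).im) -
        ∑ k : Fin (m + 1), (a₁ k * Real.log t ^ (k : ℕ)) * (-Real.log ‖1 - pt t θ‖)) :=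
      (hasSum_sum fun n _ => hasSum_sum fun k _ => hasSum_sum fun j _ =>
        (hasSum_cs n (n - j) t θ ht ht1).mul_left _).sub
        (hasSum_sum fun k _ => (hasSum_lg t θ ht ht1).mul_left _)
    convert h1 using 2 with i
    unfold qq T
    rw [eval_sub]
    simp_rw [eval_finsetSum, eval_monomial]
    rw [mul_sub]
    congr 1
    · simp_rw [mul_sum]
      refine sum_congr rfl fun n _ => sum_congr rfl fun k _ => sum_congr rfl fun j _ => ?_
      ring
    · simp_rw [mul_sum]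
      refine sum_congr rfl fun k _ => ?_
      ring
  rw [← hasSum_nat_add_iff' 1]
  rw [sum_range_one, zero_sub]
  refine (congrArg (HasSum _) ?_).mpr hT
  rw [neg_eq_iff_add_eq_zero, ← h]
  have h0 : t ^ 0 * (qq S a₀ a₁ b θ 0).eval (Real.log t) = ∑ k, a₀ k * Real.log t ^ (k : ℕ) := by
    unfold qq
    simp_rw [eval_finsetSum, eval_monomial]
    simp
  rw [h0]
  have h2 : ∑ k : Fin (m + 1), (a₁ k * Real.log t ^ (k : ℕ)) * (-Real.log ‖1 - pt t θ‖) =
      - ∑ k, a₁ k * Real.log t ^ (k : ℕ) * Real.log ‖1 - pt t θ‖ := by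
    rw [← sum_neg_distrib]
    exact sum_congr rfl fun k _ => by ring
  have h3 : ∑ n ∈ S, ∑ k, b n k * Real.log t ^ (k : ℕ) * Lcv n (pt t θ) =
      ∑ n ∈ S, ∑ k : Fin (m + 1), ∑ j ∈ range n,
        (b n k * bt j * Real.log t ^ ((k : ℕ) + j)) *
          (if Odd n then (Lic (n - j) (pt t θ)).re else (Lic (n - j) (pt t θ)).im) := by
    refine sum_congr rfl fun n _ => sum_congr rfl fun k _ => ?_
    rw [Lcv_eq, mul_sum]
    refine sum_congr rfl fun j _ => ?_
    rw [norm_pt t θ ht, pow_add]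
    ring
  rw [h2, h3]
  ring

/-- one place; `R` = real place (then all `n` are odd). -/
theorem one (hS : ∀ n ∈ S, 2 ≤ n) (R : Prop) (hR : R → ∀ n ∈ S, Odd n)
    (h : ∀ t θ : ℝ, 0 < t → t < 1 → (R → θ = 0) →
      ∑ k, a₀ k * Real.log t ^ (k : ℕ) +
        ∑ k, a₁ k * Real.log t ^ (k : ℕ) * Real.log ‖1 - pt t θ‖ +
        ∑ n ∈ S, ∑ k, b n k * Real.log t ^ (k : ℕ) * Lcv n (pt t θ) = 0) :
    a₀ = 0 ∧ a₁ = 0 ∧ ∀ n ∈ S, b n = 0 := by
  classical
  have hq : ∀ θ : ℝ, (R → θ = 0) → ∀ i, qq S a₀ a₁ b θ i = 0 := by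
    intro θ hθ
    refine uniq (qq S a₀ a₁ b θ) (m + S.sup id) (BT S a₁ b + ∑ k : Fin (m + 1), |a₀ k|) ?_
      (qq_deg S a₁ b a₀ θ) (qq_coeff S a₁ b a₀ θ)
      (fun t ht ht1 => hasSum_qq S a₁ b a₀ t θ ht ht1 (h t θ ht ht1 hθ))
    unfold BT
    positivity
  have hodd : a₁ = 0 ∧ ∀ n ∈ S.filter Odd, b n = 0 := by
    refine key (S.filter Odd) a₁ b (fun n hn => hS n (mem_filter.1 hn).1) ?_
    intro i
    have h1 := hq 0 (fun _ => rfl) (i + 1)
    rw [← h1]
    unfold qq T
    simp only [mul_zero, Real.cos_zero, mul_one]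
    congr 1
    rw [sum_filter]
    refine sum_congr rfl fun n _ => ?_
    unfold cs
    split_ifs with hn
    · simp
    · simp
  have heven : ∀ n ∈ S.filter (fun n => ¬ Odd n), b n = 0 := by
    by_cases hr : R
    · intro n hn
      rw [mem_filter] at hn
      exact absurd (hR hr n hn.1) hn.2
    · refine (key (S.filter (fun n => ¬ Odd n)) (0 : Fin (m + 1) → ℝ) b
        (fun n hn => hS n (mem_filter.1 hn).1) ?_).2
      intro i
      have h1 := hq (Real.pi / 2 / ((i : ℝ) + 1)) (fun h => absurd h hr) (i + 1)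
      rw [← h1]
      unfold qq T
      have h2 : ((i : ℝ) + 1) * (Real.pi / 2 / ((i : ℝ) + 1)) = Real.pi / 2 := by
        have : (i : ℝ) + 1 ≠ 0 := by positivity
        field_simp
      simp only [h2, Real.cos_pi_div_two, mul_zero, zero_mul, Pi.zero_apply]
      congr 1
      rw [sum_filter]
      refine sum_congr rfl fun n _ => ?_
      unfold cs
      split_ifs with hn
      · simp
      · simp
  refine ⟨?_, hodd.1, ?_⟩
  · funext k₀
    have h1 := congrArg (fun p : ℝ[X] => p.coeff (k₀ : ℕ)) (hq 0 (fun _ => rfl) 0)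
    simp only [qq, finsetSum_coeff, coeff_zero, coeff_monomial] at h1
    rw [sum_eq_single k₀] at h1
    · simpa using h1
    · intro k _ hk
      rw [if_neg]
      intro h2
      exact hk (Fin.ext h2)
    · intro hn
      exact absurd (mem_univ _) hn
  · intro n hn
    by_cases h1 : Odd n
    · exact hodd.2 n (mem_filter.2 ⟨hn, h1⟩)
    · exact heven n (mem_filter.2 ⟨hn, h1⟩)

end one

end Pool.Agent.T9h73.NF
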